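import Pool.Agent.U36.TS.Stm

/-!
# Project TS (helper36), package K2: an exponent which is divisible by the order of an action
-/

set_option autoImplicit false

namespace Pool.Agent.U36.TS

open Pool.Agent.TH954

namespace K2

/-- a function on the integers, periodic modulo `l ^ K` and `c` -/
theorem sum_dvd (l K d : ℕ) (hl : l.Prime) (c : ℤ) (E : ℤ → ℤ) (hd : d ≤ K)
    (hc : ¬ (l : ℤ) ^ (K + 1 - d) ∣ c)
    (h1 : ∀ i, (l : ℤ) ^ K ∣ E (i + (l : ℤ) ^ K) - E i)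
    (h2 : ∀ i, (l : ℤ) ^ K ∣ E (i + c) - E i) :
    (l : ℤ) ^ d ∣ ∑ i ∈ Finset.range (l ^ K), E i := by
  have hl0 : 0 < l := hl.pos
  set F : ℤ → ZMod (l ^ K) := fun i => (E i : ZMod (l ^ K)) with hF
  have cast_eq : ∀ a b : ℤ, ((a : ZMod (l ^ K)) = b) ↔ (l : ℤ) ^ K ∣ b - a := by
    intro a b
    rw [ZMod.intCast_eq_intCast_iff_dvd_sub]
    push_cast
    rfl
  have p1 : Function.Periodic F ((l : ℤ) ^ K) := by
    intro i
    have := h1 i
    simp only [hF]
    rw [cast_eq, ← neg_sub]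
    exact (dvd_neg).2 this
  have p2 : Function.Periodic F c := by
    intro i
    have := h2 i
    simp only [hF]
    rw [cast_eq, ← neg_sub]
    exact (dvd_neg).2 this
  set gg : ℕ := Int.gcd c ((l : ℤ) ^ K) with hgg
  have p3 : Function.Periodic F (gg : ℤ) := by
    have e := Int.gcd_eq_gcd_ab c ((l : ℤ) ^ K)
    intro i
    have q1 : Function.Periodic F (Int.gcdA c ((l : ℤ) ^ K) * c) := by
      have := p2.int_mul (Int.gcdA c ((l : ℤ) ^ K))
      simpa using this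
    have q2 : Function.Periodic F (Int.gcdB c ((l : ℤ) ^ K) * (l : ℤ) ^ K) := by
      have := p1.int_mul (Int.gcdB c ((l : ℤ) ^ K))
      simpa using this
    have e2 : i + (gg : ℤ) = i + Int.gcdA c ((l : ℤ) ^ K) * c +
        Int.gcdB c ((l : ℤ) ^ K) * (l : ℤ) ^ K := by
      rw [hgg, e]; ring
    rw [e2, q2, q1]
  have hdvd : gg ∣ l ^ K := by
    have h3 : ((gg : ℕ) : ℤ) ∣ (l : ℤ) ^ K := Int.gcd_dvd_right _ _
    exact_mod_cast h3
  obtain ⟨v, hv, hgv⟩ := (Nat.dvd_prime_pow hl).1 hdvd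
  have hvd : v < K + 1 - d := by
    by_contra hcon
    push Not at hcon
    apply hc
    have h3 : ((gg : ℕ) : ℤ) ∣ c := Int.gcd_dvd_left _ _
    rw [hgv] at h3
    push_cast at h3
    exact (pow_dvd_pow (l : ℤ) hcon).trans h3
  have hsum : ∀ k : ℕ, ∑ i ∈ Finset.range (k * gg), F (i : ℤ) =
      (k : ZMod (l ^ K)) * ∑ i ∈ Finset.range gg, F (i : ℤ) := by
    intro k
    induction k with
    | zero => simp
    | succ k ih =>
      rw [Nat.succ_mul, Finset.sum_range_add, ih]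
      have h3 : ∀ j ∈ Finset.range gg, F (((k * gg + j : ℕ) : ℕ) : ℤ) = F (j : ℤ) := by
        intro j _
        have h4 := p3.nat_mul k (j : ℤ)
        rw [← h4]
        congr 1
        push_cast
        ring
      rw [Finset.sum_congr rfl h3]
      push_cast
      ring
  have hK : l ^ K = l ^ (K - v) * gg := by
    rw [hgv, ← pow_add]
    congr 1
    omega
  have h5 : ((∑ i ∈ Finset.range (l ^ K), E (i : ℤ) : ℤ) : ZMod (l ^ K)) =
      (((l : ℤ) ^ (K - v) * ∑ i ∈ Finset.range gg, E (i : ℤ) : ℤ) : ZMod (l ^ K)) := by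
    have h6 := hsum (l ^ (K - v))
    rw [← hK] at h6
    push_cast at h6 ⊢
    exact h6
  rw [cast_eq] at h5
  have h7 : (l : ℤ) ^ d ∣ (l : ℤ) ^ K := pow_dvd_pow _ hd
  have h8 : (l : ℤ) ^ d ∣ (l : ℤ) ^ (K - v) * ∑ i ∈ Finset.range gg, E (i : ℤ) :=
    Dvd.dvd.mul_right (pow_dvd_pow _ (by omega)) _
  have h9 := (Int.dvd_iff_dvd_of_dvd_sub (h7.trans h5)).1 h8
  exact h9

theorem prod_eq {M : Type} [Field M] {Z : M} {N : ℕ} (hN : 0 < N) (hZ : IsPrimitiveRoot Z N)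
    (x : M) : ∏ i ∈ Finset.range N, (1 - Z ^ (i : ℤ) * x) = 1 - x ^ N := by
  classical
  have : NeZero N := ⟨hN.ne'⟩
  have h1 := hZ.pow_sub_pow_eq_prod_sub_mul 1 x hN
  rw [one_pow] at h1
  rw [h1]
  have h2 : Polynomial.nthRootsFinset N (1 : M) = (Finset.range N).image fun i => Z ^ i := by
    ext y
    rw [Polynomial.mem_nthRootsFinset hN, Finset.mem_image]
    constructor
    · intro hy
      obtain ⟨i, hi, hiy⟩ := hZ.eq_pow_of_pow_eq_one hy
      exact ⟨i, Finset.mem_range.2 hi, hiy⟩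
    · rintro ⟨i, _, rfl⟩
      rw [← pow_mul, mul_comm, pow_mul, hZ.pow_eq_one, one_pow]
  rw [h2, Finset.prod_image]
  · refine Finset.prod_congr rfl fun i _ => ?_
    rw [zpow_natCast]
  · intro i hi j hj hij
    exact hZ.pow_inj (Finset.mem_range.1 hi) (Finset.mem_range.1 hj) hij

section
variable {M : Type} [Field M] {l q : ℕ} {th : ℕ → M} {T Ph : M ≃+* M} {U : Set M}

theorem pow_th (S : M ≃+* M) (z : M) (h : S z = z) (n : ℕ) : (S ^ n) z = z := by
  induction n with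
  | zero => rfl
  | succ n ih => rw [pow_succ, RingAut.mul_apply, h, ih]

theorem rel_pow (hT : Tame M l q th T Ph U) (n : ℕ) (x : M) :
    Ph ((T ^ n) x) = (T ^ (q * n)) (Ph x) := by
  induction n generalizing x with
  | zero => rfl
  | succ n ih =>
    rw [pow_succ, RingAut.mul_apply, ih, hT.rel, ← RingAut.mul_apply, ← pow_add]
    congr 2

theorem pow_root (S : M ≃+* M) (Z z : M) (hZ : S Z = Z) (j : ℤ) (h : S z = Z ^ j * z)
    (hZ0 : Z ≠ 0) (k : ℕ) : (S ^ k) z = Z ^ ((k : ℤ) * j) * z := by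
  induction k with
  | zero => simp
  | succ k ih =>
    rw [pow_succ', RingAut.mul_apply, ih, map_mul, map_zpow₀, hZ, h, ← mul_assoc,
      ← zpow_add₀ hZ0]
    congr 2
    push_cast
    ring

end

end K2

open K2 in
theorem t_K2 (hEX : S_EX) : S_K2 := by
  intro M _ l q th T Ph U hT n K d c e x' hx' h1x hTx hPx hq hd hc he
  have hl := hT.prime
  set N := l ^ K with hN
  have hN0 : 0 < N := pow_pos hl.pos K
  set Z := th K with hZd
  have hZ : IsPrimitiveRoot Z N := hT.prim K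
  have hZ0 : Z ≠ 0 := hZ.ne_zero hN0.ne'
  set S := T ^ n with hS
  have hSth : ∀ m, S (th m) = th m := fun m => pow_th T _ (hT.T_fix m) n
  obtain ⟨x1, x2, x3, x4, x5, x6⟩ := hEX M l q th T Ph U hT S hSth
  have zz : ∀ a b : ℤ, Z ^ a = Z ^ b ↔ (N : ℤ) ∣ a - b := by
    intro a b
    rw [← hZ.zpow_eq_one_iff_dvd, zpow_sub₀ hZ0, div_eq_one_iff_eq (zpow_ne_zero _ hZ0)]
  have hNc : (N : ℤ) = (l : ℤ) ^ K := by rw [hN]; push_cast; rfl
  have hq1 : (N : ℤ) ∣ (q : ℤ) - 1 := by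
    have h2 := hT.two
    obtain ⟨k, hk⟩ := hq
    refine ⟨k, ?_⟩
    have : q = N * k + 1 := by omega
    rw [this]
    push_cast
    ring
  have hqz : ∀ a : ℤ, Z ^ ((q : ℤ) * a) = Z ^ a := by
    intro a
    rw [zz]
    have : (q : ℤ) * a - a = ((q : ℤ) - 1) * a := by ring
    rw [this]
    exact Dvd.dvd.mul_right hq1 _
  set h : ℤ → M := fun i => 1 - Z ^ i * x' with hh
  have hU : ∀ i, h i ∈ U := fun i => hT.one_sub x' hx' K h1x i
  have hPh : ∀ i, Ph (h i) = h (i + c) := by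
    intro i
    simp only [hh]
    rw [map_sub, map_one, map_mul, map_zpow₀, hPx, hT.Ph_pow K]
    congr 1
    rw [← zpow_natCast, ← zpow_mul, hqz, ← mul_assoc, ← zpow_add₀ hZ0]
  have hSh : ∀ i, S (h i) = h i := by
    intro i
    simp only [hh]
    rw [map_sub, map_one, map_mul, map_zpow₀, hSth K, hTx]
  choose E hE using fun i => x1 (h i) (hU i) (hSh i) K
  have P1 : ∀ i, (l : ℤ) ^ K ∣ E (i + (l : ℤ) ^ K) - E i := by
    intro i
    have e1 : h (i + (l : ℤ) ^ K) = h i := by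
      simp only [hh]
      have : Z ^ (i + (l : ℤ) ^ K) = Z ^ i := by
        rw [zz, hNc]
        exact ⟨1, by ring⟩
      rw [this]
    have h3 := hE (i + (l : ℤ) ^ K)
    rw [e1] at h3
    exact x2 (h i) (hU i) K _ _ h3 (hE i)
  have P2 : ∀ i, (l : ℤ) ^ K ∣ E (i + c) - E i := by
    intro i
    obtain ⟨y, hy⟩ := hT.root (h i) (hU i) K
    have hy0 : y ≠ 0 := by
      rintro rfl
      rw [zero_pow hN0.ne'] at hy
      exact hT.ne_zero _ (hU i) hy.symm
    have hPy0 : Ph y ≠ 0 := by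
      intro h4
      exact hy0 ((map_eq_zero_iff Ph Ph.injective).1 h4)
    have hPy : (Ph y) ^ l ^ K = h (i + c) := by
      rw [← map_pow, hy, hPh]
    have h3 : S (Ph y) = Z ^ E (i + c) * Ph y := hE (i + c) _ hPy
    have h4 : S y = Z ^ E i * y := hE i _ hy
    have h5 : Ph (S y) = (T ^ (q * n)) (Ph y) := rel_pow hT n y
    have h6 : (T ^ (q * n)) (Ph y) = Z ^ ((q : ℤ) * E (i + c)) * Ph y := by
      rw [mul_comm q n, pow_mul, ← hS]
      exact pow_root S Z (Ph y) (hSth K) _ h3 hZ0 q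
    rw [h4, map_mul, map_zpow₀, hT.Ph_pow K, h6, ← zpow_natCast, ← zpow_mul, hqz, hqz] at h5
    have h7 := mul_right_cancel₀ hPy0 h5
    have h8 := (zz _ _).1 h7.symm
    rw [hNc] at h8
    exact h8
  have hprod : ∀ k : ℕ, (∏ i ∈ Finset.range (k + 1), h (i : ℤ)) ∈ U ∧
      Ex S th l K (∏ i ∈ Finset.range (k + 1), h (i : ℤ)) (∑ i ∈ Finset.range (k + 1), E (i : ℤ)) := by
    intro k
    induction k with
    | zero => simpa using ⟨hU 0, hE 0⟩
    | succ k ih =>
      rw [Finset.prod_range_succ, Finset.sum_range_succ]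
      exact ⟨hT.mul _ ih.1 _ (hU _), x4 _ ih.1 _ (hU _) K _ _ ih.2 (hE _)⟩
  have h9 := hprod (N - 1)
  rw [Nat.sub_add_cancel hN0] at h9
  have h10 : ∏ i ∈ Finset.range N, h (i : ℤ) = 1 - x' ^ l ^ K := prod_eq hN0 hZ x'
  rw [h10] at h9
  have h11 := x2 _ h9.1 K _ _ he h9.2
  have h12 := sum_dvd l K d hl c E hd hc P1 P2
  have h13 : (l : ℤ) ^ d ∣ (l : ℤ) ^ K := pow_dvd_pow _ hd
  have h14 : (l : ℤ) ^ d ∣ e - ∑ i ∈ Finset.range N, E (i : ℤ) := h13.trans h11
  have h15 := dvd_add h14 h12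
  have h16 : e - ∑ i ∈ Finset.range N, E (i : ℤ) + ∑ i ∈ Finset.range (l ^ K), E (i : ℤ) = e := by
    ring
  rwa [h16] at h15

end Pool.Agent.U36.TS
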